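import Pool.Agent.U231.FR.Re

/-!
# Rational and numerical equivalence on products with varieties of Fermat type

Let `κ` be a finite field with `q` elements, of characteristic `p`, and `𝒱` a class of smooth projective
varieties over `κ`, closed under products, with Chow groups `A` with rational coefficients and a Weil
cohomology theory `H` (framework of helper492 and helper484: `TheoryData`, `IsChow`, `IsWeil`). Let `X_i` be
varieties in `𝒱` **of Fermat type** of different prime degrees `N_i` and of lengths at most `s_i`
(`IsFermatType`): the cohomology of `X_i` is generated by the classes of cycles and a subspace `T_i`, stable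
under the Frobenius, such that each eigenvalue of the Frobenius on `T_i` is, up to a root of unity and a
power of `q`, a product `∏_{a ∈ A} g(θ ^ a)` of at most `s_i` Gauss sums over `κ`, where `θ` is a
multiplicative character of `κ` of order `N_i`, and where the multiset `A + p A + ⋯ + p ^ (f - 1) A`, `f` the
order of `p` modulo `N_i`, is not symmetric, i.e. not invariant under `a ↦ -a`.

By the theorem of Weil the diagonal hypersurfaces `∑ c_j x_j ^ N = 0` of dimension `n` over `κ` (for
`q ≡ 1` modulo `N`) and their powers and products are of this form with `s = n + 2` (for products: the sum
of these numbers), if the classes with symmetric `A + p A + ⋯` are algebraic. For `p ≡ 1` modulo `N` the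
condition on the multiset is that `A` is not symmetric, and **the algebraicity for symmetric `A` is known**
for `c_j = 1`, and in general after a finite extension of `κ` (linear subspaces, Ran, Shioda and Katsura).

Let `Z` be **any** variety in `𝒱`, of any dimension, such that the eigenvalues `β` of Frobenius on `H(Z)` are
algebraic numbers (theorem of Deligne), and let `f_i` be the order of `p` modulo `N_i`. Suppose that for all `β` and all `i` there is an `m > 0` such that (`IsSmallBase`)

* the field `F = ℚ(β ^ m) ∩ ℚ(ζ_{N_i})`, `ζ_N` a root of unity of order `N`, is real (equivalently
  `(N_i - 1) / [F : ℚ]` is even); for instance `N_i` is odd and unramified in the field `ℚ(β ^ m)`;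
* or `N_i > s_i f_i [F : ℚ] + 1`; or `N_i = 2`.

**So the theorem applies to all prime numbers `N_i` with finitely many exceptions, which depend only on
the fields `ℚ(β)`. For the other primes there is no condition at all on the `X_i`: they may be of any
dimension and products of any number of factors, and `s_i` and `f_i` are arbitrary.** Suppose that homologically trivial self-correspondences of degree zero of the products
`V` are nilpotent. This is known for example if `Z` is dominated by a product of curves and the `X_i` are
diagonal hypersurfaces (Kimura; Shioda and Katsura).

**Theorem.** Let `V` be the product of `Z` and of finitely many pairwise different `X_i`, and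
`v = dim V - dim Z`.
* For every `n` **the intersection pairing `CH^n(V)_ℝ × CH^(d-n)(V)_ℝ → ℝ`, `d = dim V`, is perfect if and
  only if the pairings `CH^l(Z)_ℝ × CH^(dim Z - l)(Z)_ℝ → ℝ` with `n - v ≤ l ≤ n` are perfect.** So the
  conjecture of Beilinson for `V` is equivalent to the one for `Z`, degree by degree.
* Rational and numerical equivalence (rational and homological equivalence) with rational
  coefficients coincide on `V` if and only if they coincide on `Z`.
* If `V = X_i × V'`, then there are finitely many algebraic cycles `D j` on `X_i` with
  `CH^n(X_i × V')_ℚ = ⨁ D j × CH^(n - deg D j)(V')_ℚ` for all `n`.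

No case of the Tate conjecture is assumed for `Z`. If `Z` is a curve or a surface dominated by a product
of curves, all pairings for `Z` are perfect, and so are all pairings for `V`: for such a surface `Z`, and
diagonal hypersurfaces `X_i` of any dimensions and of different odd prime degrees `N_i` dividing `p - 1`,
unramified in the fields of the Frobenius eigenvalues of `Z`, **rational and numerical
equivalence coincide on `X_1 × ⋯ × X_r × Z`**.

The earlier results for this problem are about products with abelian varieties. The varieties of
Fermat type are of a different kind: their cohomology is in arbitrary degrees, the primitive part of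
a diagonal hypersurface of prime degree `N` decomposes in many pieces of rank `(N - 1) / f` (with
the coefficient field `ℚ(ζ_N)` in general), among them pieces of very small level, and `Z` is arbitrary.

The proof. Let `α_i` be eigenvalues of the Frobenius on the `T_i`, for `i` in a nonempty set `I`, and
suppose that `β ∏ α_i` is a power of `q` up to a root of unity. By the theorem of Stickelberger for the
conjugates of Gauss sums the function `t ↦ ∑_{x ∈ A + p A + ⋯} saw(t x)` on `(ℤ/N_i)ˣ` is invariant
under the subgroup with the fixed field `F`. The values `L(1, χ)` are not zero, so the
sawtooth functions `t ↦ saw(t x)` are independent up to the sign of `x`, and the odd part of the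
multiplicity function of `A + p A + ⋯` is invariant under this subgroup and not zero. So `-1` is not
in the subgroup (`F` is not real), and the support of `A + p A + ⋯` contains a coset of it: at least
`(N_i - 1) / [F : ℚ]` elements, but at most `s_i f_i`, a contradiction
(`U231/FF`, as in my hand-ins `FermatFactors` for other conjectures, see the claim file).
The Künneth formula for the Chow groups then follows by projectors in the ring generated
by the Frobenius and the algebraic cycles, and the pairing is an orthogonal sum (helper876,
`N876/CG`).

helper231 (`Pool/Agent/U231/FF`, `U231/FR`); the part on Chow groups is the library of helper876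
(`N876/CG/Tower`; its theorems `Cs.perfect_tw` and `Cs.ratEqNum_tw` were not used in a hand-in), built on
helpers 484, 492, 550 and `Y154/BQ`.
-/

set_option autoImplicit false

open Polynomial CategoryTheory AlgebraicGeometry

namespace Pool.Agent.Results.MP_4960c7_ag.FermatFactors

open Pool.Agent.H914 Pool.Agent.H914.VarClass Pool.Agent.H914.VarClass.Obj Pool.Agent.W492.BB
  Pool.Agent.W484.CK Pool.Agent.U231.FF Pool.Agent.U231.FR.Base Pool.Agent.U231.FR.Re

/-- **Rational and numerical equivalence on products of arbitrary varieties with varieties of Fermat
type of different prime degrees.** -/
theorem result (p : ℕ) [Fact p.Prime] (κ : Type) [Field κ] [Fintype κ] [CharP κ p] {ι : Type}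
    (N s : ι → ℕ) {𝒱 : VarClass κ} (A : TheoryData.{0, 0, 0} 𝒱 ℚ) [IsChow A] {K : Type} [Field K]
    [IsAlgClosed K] [CharZero K] (H : WeilTheoryData.{0, 0, 0} A K) [IsWeil H] (τ : K →+* ℂ)
    (F : ∀ X : 𝒱.Obj, X ⟶ X) (X : ι → 𝒱.Obj) (Z : 𝒱.Obj)
    (h : IsFermatFamily p N s H τ F X Z) :
    (∀ L : List ι, L.Nodup → Conclusions H X Z L) ∧
    -- the degree in the condition on `Z` is at most the degree of the eigenvalue
    (∀ (n : ℕ) (β : ℂ), IsAlgebraic ℚ β → commonDegree n β ≤ (minpoly ℚ β).natDegree) :=
  ⟨fun L hL => main p κ N s A H τ F X Z h L hL, fun _ _ hβ => commonDegree_le hβ⟩

end Pool.Agent.Results.MP_4960c7_ag.FermatFactors
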