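import Mathlib
import Pool.Agent.Q29.EP.RowsCT
import Pool.Agent.Y1.CT.Light

/-!
# Perfectness of the intersection pairings for products with abelian varieties with one half of all
slope types of every CM field of degree `2 r ^ k`

Let `K i` (`i` in a finite set) be CM fields of degree `2 g i` which are pairwise independent: for
`i ≠ k` and all complex embeddings `φ` of `K i` and `ψ` of `K k` some automorphism of `ℂ` is the
identity on `φ (K i)` and the complex conjugation on `ψ (K k)` (this is no condition if there is
only one field). We fix an isomorphism `ν` of the algebraic closure of `ℚ_p` with `ℂ`; it defines a
`p`-adic valuation of `ℂ`, with the value one at `p`. Let `M i` be a function with integral values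
on the complex embeddings of `K i`, invariant under complex conjugation (the weights). A CM type
`Φ i` of `K i` (a choice of one element out of each complex conjugate pair of embeddings), `M i` and
a real number `κ ≠ 0` prescribe the slopes `(a + κ M) / 2` (at the embeddings in `Φ i`) and
`(a - κ M) / 2` (outside of `Φ i`) of a Weil number for `p ^ a` in `K i`. If `p` splits completely
in `K i` then, by Honda and Tate, all rational slopes between `0` and `a` that are symmetric in this
way occur for abelian varieties over finite fields. The case `M = 1`, `κ = a` is the ordinary case.

Let `π i` be Weil numbers for `q = p ^ a` that generate the fields `K i` and have the slope types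
`Φ i`, `M i` (`HasType`), and let `f i` be monic polynomials whose complex roots are conjugates of
`π i` (`IsPolyOf`), for instance the characteristic polynomials of Frobenius of the abelian
varieties in the isogeny classes of the `π i`. Let `A` be an abelian variety over the field with
`Q = q ^ s` elements which is isogenous to a product of powers of abelian varieties coming from the
field with `q` elements, with characteristic polynomials `f i`, and let `Z` be **any** smooth
projective variety over the field with `Q` elements such that

* the eigenvalues `ρ` of Frobenius on the cohomology of `Z` and their conjugates are independent
  of the fields `K i` (`Independent`): for each complex embedding `ψ` of `K i` there is an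
  automorphism `τ` of `ℂ` which fixes a power of `ρ` and is the complex conjugation on `ψ (K i)`.
  This is so if the eigenvalues have powers in a number field which is linearly disjoint from the
  normal closures of the `K i`, or powers in a totally real field (take for `τ` the complex
  conjugation);
* homologically trivial self-correspondences of degree zero of `A × Z` are nilpotent, for instance
  the motive of `Z` is finite-dimensional in the sense of Kimura and O'Sullivan. This is known for
  all varieties dominated by products of curves, and for their products with `A`.

**The property of the slope types** (`Q`, `PerfectPairingTimes`): the Kunneth formula holds for the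
Chow groups of `A × Z` with rational coefficients, and for every `n` **the pairing
`CH^n(A × Z)_ℝ × CH^(dim A + dim Z - n)(A × Z)_ℝ → ℝ` is perfect if and only if the pairings
`CH^m(Z)_ℝ × CH^(dim Z - m)(Z)_ℝ → ℝ` with `n - dim A ≤ m ≤ n` are perfect** (`PerfectAt`: both real
vector spaces are finite-dimensional and the map to the dual space is bijective). In particular, if
`Z` is a point, all these pairings are perfect for `A`. The Frobenius endomorphism acts on
`CH^i(A × Z)_ℚ` as multiplication by `Q ^ i`.

The framework (`TheoryData`, `IsChow`, `IsWeil`) is the one of the starting files: the Chow groups
`C` with their pull-backs, push-forwards and products, and a Weil cohomology theory `H` with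
coefficients in an algebraically closed field, on a class `𝒱` of smooth proper varieties over `k`.

**The theorem.** Let `K` be **any CM field of degree `2 g = 2 r ^ k`**, `r` a prime number, of
degree at least `16` if `r = 2`. Nothing is assumed about the Galois group of the normal closure of
`K`, and nothing about the subfields of `K`.

* (`HalfOfAll`) For all weights `M` (odd if `r = 2`; if `r` is odd then `r` may divide some, but not
  all of them) the property `Q` is true for **at least one half of all `2 ^ g` types** of `K`.
* (`MostWithWeightsOne`) For the weights `M = 1` (for instance in the ordinary case) it is true for
  at least `(1 - 1 / r) 2 ^ g` of the types.
* (`OneOfTwo`) There is a set `B` of embeddings of `K`, stable under complex conjugation, such that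
  for **every** type `Φ` it is true for `Φ` or for the symmetric difference of `Φ` and `B`.
* (`SixteenPercent`) There is a number `g₀` such that for every CM field that is **abelian over
  `ℚ`**, of any degree `2 g ≥ 2 g₀`, and all odd weights it is true for at least 16 percent of all
  `2 ^ g` types; again nothing is assumed on the subfields.

All this is proved more generally for finitely many pairwise independent fields `K i`; the
proportions are then multiplied.

The earlier result for this problem (AlmostAllAbelianPerfect) treats almost all isogeny classes of
abelian varieties over the field with `q` elements as `q` tends to infinity; nothing was known for
a given CM field with many CM subfields. The proof joins two parts of the library of the starting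
files: the theorem that one half of all types have no relations (`Pool.Agent.Q29.EP`, written for
the conjecture of Parshin, MP_de59b4_ag), and the consequences of the absence of relations for
this problem.
-/

set_option autoImplicit false

namespace Pool.Agent.Results.MP_4960c7_ag.HalfOfAllTypes

open NumberField Module Pool.Agent.H204R3.CM Pool.Agent.H977R3.CM Pool.Agent.Y1.KN
  Pool.Agent.Y1.CT Pool.Agent.Q29.EP

open Pool.Agent.Q29.DP (of_independent)

/-- The property of the slope types `Φ i` with the weights `M i`. -/
def Q : TypeProperty := fun _ _ ν _ _ K _ _ _ M Φ => ForAllTypes ν K M (PerfectPairingTimes K) Φ

/-- **The intersection pairings of `A × Z` are perfect if and only if those of `Z` are, for the abelian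
varieties `A` with one half of all slope types of every CM field of degree `2 r ^ k`, and all
independent varieties `Z`.** -/
theorem result : HalfOfAll Q ∧ MostWithWeightsOne Q ∧ OneOfTwo Q ∧ SixteenPercent Q := by
  have h : WithoutRelations Q := of_independent (P := fun _ K _ => PerfectPairingTimes K)
    fun _ _ _ _ _ _ hQ hR => perfectPairingTimes hQ hR
  exact ⟨halfOfAll h, mostWithWeightsOne h, oneOfTwo h, sixteenPercent h⟩

end Pool.Agent.Results.MP_4960c7_ag.HalfOfAllTypes
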