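import Pool.Agent.U173.PS.Re

/-!
# Rational and numerical equivalence on products of varieties over finite fields whose slope fields meet
# pairwise in totally real fields

Let `𝒱` be a class of smooth projective varieties over the field `κ` with `p ^ m` elements, closed under
products, with Chow groups `A` with rational coefficients and a Weil cohomology theory `H` with an
algebraically closed field `C` of coefficients (framework of the starting library: `TheoryData`, `IsChow`,
`IsWeil`), and fix a place `ι` above `p` of the field `ℚ̄` of algebraic numbers. A *slope field* of an
algebraic number `ν` is a subfield `L` of `ℚ̄` such that the automorphisms of `ℚ̄` over `L` do not change the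
absolute values at `ι` of the conjugates of `ν` (`HasSlopesIn`); a slope field of a variety is a slope field of
its Frobenius eigenvalues. (For example the reflex field of the CM type given by the slopes, for an
ordinary abelian variety and all its powers; in general the field of definition of the slope cocharacter of
the Frobenius torus, which is totally real or a CM field.)

Let `E` be a totally real field and let `X i` be varieties such that the cohomology of `X i` is generated
by the classes of cycles and a Frobenius-stable subspace on which all eigenvalues are Weil numbers with
slope field `L i`, and not supersingular (`IsGoodAlgebra`: **this is the Tate conjecture for `X i` with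
semisimplicity**, if there are no supersingular eigenvalues in odd degrees). We suppose that the fields
`L i` contain `E`, are normal over `E` with at most one exception, and meet **pairwise** in totally real
fields (`ArePairwise`). Let `Z` be **any** variety with a slope field `M` which contains `E` and meets each
`L i` in a totally real field (`IsSlopeFamily`). Suppose that homologically trivial self-correspondences of
degree zero of the products are nilpotent (this is known if `Z` and the `X i` are dominated by products of
curves, by Kimura and O'Sullivan).

**Theorem.** Let `V` be the product of `Z` and of finitely many pairwise different `X i`, and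
`v = dim V - dim Z`.
* For every `n` **the intersection pairing `CH^n(V)_ℝ × CH^(d-n)(V)_ℝ → ℝ`, `d = dim V`, is perfect if and
  only if the pairings `CH^l(Z)_ℝ × CH^(dim Z - l)(Z)_ℝ → ℝ` with `n - v ≤ l ≤ n` are perfect.** So the
  conjecture of Beilinson for `V` is equivalent to the one for `Z`, degree by degree.
* Rational and numerical equivalence (rational and homological equivalence) with rational coefficients
  coincide on `V` if and only if they coincide on `Z`.
* If `V = X_i × V'`, then there are finitely many algebraic cycles `D j` on `X_i` with
  `CH^n(X_i × V')_ℚ = ⨁ D j × CH^(n - deg D j)(V')_ℚ` for all `n`.

Nothing is assumed on the Tate conjecture for `Z`, on the size of the fields and of the Betti numbers, on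
the relations between the eigenvalues of one `X i`, and on the composita of the fields. For example, `X i`
can be a product of varieties of Fermat type of degree `N_i` (or of abelian varieties with complex
multiplication by the field of the `N_i`-th roots of unity), with Tate conjecture, of any dimensions, for
pairwise coprime numbers `N_i`: a slope field is the decomposition field of `p` in the field of the
`N_i`-th roots of unity. More generally it is enough that `-1` is a power of `p` modulo the greatest common
divisor of `N_i` and `N_j`, for `i ≠ j`.

The proof. Let `α i` be Frobenius eigenvalues on the second parts of the `H(X i)`, for `i` in a nonempty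
finite set, and `β` one on `H(Z)`, such that `β ∏ α i` is a power of `p` up to a root of unity. The
functions `2 log |g α i| - const` on the Galois group are odd under the complex conjugation and invariant
under `H i = Gal(ℚ̄ / L i)`, their sum is invariant under `Gal(ℚ̄ / M)`. The average over `H i` is central for
`L i` normal over `E`, so it kills the other functions (the groups `H i` and `H j` generate a group which
contains the complex conjugation). So each of these functions is invariant under `H i` and
`Gal(ℚ̄ / M)`, hence zero, and `α i` is supersingular, a contradiction (`U173/SL/Pair`). The rest, from
the absence of resonances to the Künneth formula for Chow groups and the pairing, is the library of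
helper876 (`N876/CG`), used as in `FermatFactors` of this run (helper231).
-/

set_option autoImplicit false

open CategoryTheory AlgebraicGeometry

namespace Pool.Agent.Results.MP_4960c7_ag.PairwiseSlopeFields

open Pool.Agent.H914 Pool.Agent.H914.VarClass Pool.Agent.H914.VarClass.Obj Pool.Agent.W492.BB
  Pool.Agent.W484.CK Pool.Agent.U231.FR.Base Pool.Agent.U231.FR.Re Pool.Agent.U173.PS

/-- **Rational and numerical equivalence on products with varieties whose slope fields meet pairwise in
totally real fields.** -/
theorem result {κ : Type} [Field κ] {𝒱 : VarClass κ} (A : TheoryData.{0, 0, 0} 𝒱 ℚ) [IsChow A]
    {C : Type} [Field C] [IsAlgClosed C] [CharZero C] (H : WeilTheoryData.{0, 0, 0} A C) [IsWeil H]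
    {I : Type} (p m : ℕ) [Fact p.Prime] (ι : AlgebraicClosure ℚ →+* PadicAlgCl p)
    (E M : IntermediateField ℚ (AlgebraicClosure ℚ))
    (L : I → IntermediateField ℚ (AlgebraicClosure ℚ)) (F : ∀ X : 𝒱.Obj, X ⟶ X) (X : I → 𝒱.Obj)
    (Z : 𝒱.Obj) (h : IsSlopeFamily p m ι E M L H F X Z)
    (hnil : ∀ l : List I, Nilpotence H (productOf X Z l)) (l : List I) (hl : l.Nodup) :
    Conclusions H X Z l :=
  re_main h hnil l hl

end Pool.Agent.Results.MP_4960c7_ag.PairwiseSlopeFields
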