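import Pool.Agent.U724.CH.Fin

/-!
# MP_4960c7_ag: rational and numerical equivalence coincide on `X`, or the Chow groups of the powers of
`X` grow exponentially faster than the cohomology

Let `X` be a smooth projective scheme over `F_q`, `b` the sum of its Betti numbers, and
`δ (n) = dim CH (X ^ n)_hom` the dimension of the space of the homologically trivial cycles of all
dimensions on `X ^ n` with rational coefficients, a natural number or infinity (the conjecture of
the question predicts `δ (n) = 0` for all `n`). Assume the strong conjecture of Tate for `X`: for all
`i` the order of the pole of the zeta function of `X` at `s = i` is the rank of the group of the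
cycles of codimension `i` modulo numerical equivalence. Nothing is assumed for the powers of `X`.

Theorem. Either rational and numerical equivalence coincide on `X` (with rational, hence with real
coefficients: all pairings of the question for `X` are perfect), or **`δ (n) ≥ c ^ n` for all large
`n`, for each `c < b + 1`**.

For example, let `X` be a cubic fourfold, where `b = 27` and the conjecture of Tate is known (and, as it
seems, the question is open in codimension 3): all pairings are perfect for `X`, or
`dim CH (X ^ n)_hom ≥ 27.9 ^ n` for all large `n`. So the conjecture for `X` is settled by a very weak
upper bound for the Chow groups of the powers of `X`. The rank of the group of all cycles on `X ^ n`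
modulo numerical equivalence is at most `b ^ n`. The starting library has the corresponding result
with `dim CH (X ^ n) ≤ c ρ (n)` for a constant `c < 2` and the numerical rank `ρ (n) ≤ b ^ n`
(ProductsVanish), without the conjecture of Tate.

The setting. The Chow group `Chow X` of a scheme `X` (cycles of all dimensions with rational
coefficients modulo rational equivalence) is defined with the order of vanishing of Mathlib.
Intersection theory enters through the category `C` of Chow motives over `k = F_q` with the
correspondences of all degrees as morphisms: a rigid symmetric monoidal pseudo-abelian category with
objects `h (X)` for the varieties `X` over `k`, `Hom (1, h (X)) = Chow X` and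
`h (X × Y) = h (X) ⊗ h (Y)` (structure `Motives`). `R` is the `ℓ`-adic cohomology with
coefficients extended to an algebraic closure `K` of `ℚ_ℓ`. The
sign conjecture (`CPlus`) is known for all `X` (Katz, Messing). `φ` is the Frobenius of `X`, which
acts on the class of an integral closed subscheme of codimension `i` as `q ^ i`;
`L = {1, q, …, q ^ d}`.

Idea of the proof. If `δ (n)` is not large then all homologically trivial correspondences from
`X` to itself are nilpotent, by MP_868bb7_ag.GrowthDichotomy: otherwise a summand of
`h (X)` would be a phantom. Let this be the case. Then `φ` satisfies an equation over `ℚ`,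
and a polynomial in `φ` is an idempotent `ε` whose realisation is the projector to the generalised
eigenspace of `q ^ i`. By the conjecture of Tate it is spanned by classes `b_j` of algebraic cycles
`β_j` of codimension `i`, numerically independent; let `γ_j` be dual cycles. Then
`p = ∑ γ_j ≫ β_j` is an idempotent, `ε ≫ p = p = p ≫ ε`, and `ε - p` is a homologically trivial
idempotent, so it is zero. If `α` is numerically trivial of codimension `i` then
`α = α ≫ ε = ∑ (α ≫ γ_j) ≫ β_j = 0`.
-/

set_option autoImplicit false

open CategoryTheory MonoidalCategory Module
open Pool.Agent.Y112.SR Pool.Agent.Y112.KD Pool.Agent.N64.AF Pool.Agent.U724.CH Pool.Agent.U724.FF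

namespace Pool.Agent.Results.MP_4960c7_ag.ZeroOrExponential

universe u u' v w

/-- Under the strong conjecture of Tate for `X` (with the Frobenius `φ`): rational and numerical
equivalence coincide on `X` or the homologically trivial cycles on the powers of `X` grow exponentially
faster than the cohomology. -/
theorem result {k : Type u} [Field k] {C : Type u'} [Category.{v} C] [Preadditive C]
    [MonoidalCategory C] [MonoidalPreadditive C] [SymmetricCategory C] [RightRigidCategory C]
    [Linear ℚ C] [MonoidalLinear ℚ C] [IsIdempotentComplete C] (M : Motives k C)
    {K : Type w} [Field K] [IsAlgClosed K] [Algebra ℚ K] (R : SuperRealisation C K)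
    (X : Sch k) (hX : M.IsVar X) (hne : Nonempty X.left) (hs : R.CPlus (M.h X))
    (φ : M.h X ⟶ M.h X) (L : Finset ℚ)
    (hφ : ∀ x : X.left, ∃ r ∈ L, M.act hX φ (cyc x) = r • cyc x)
    (hT : ∀ r ∈ L, StrongTate R φ r) :
    (∀ z : Chow X.left, NumTriv ((M.cycles X hX).symm z) → z = 0) ∨
      ∀ c : ℝ, 0 ≤ c → c < M.betti R X + 1 → M.Grows R hX c :=
  M.zero_or R hX hne hs φ L hφ hT

end Pool.Agent.Results.MP_4960c7_ag.ZeroOrExponential
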